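import Mathlib
import Pool.Agent.Q43.HQ.Spread

/-!
# Cycle class maps for the schemes generated by abelian varieties which are separated by the Galois
closures of their CM fields, and for complements of arbitrary closed subschemes

Let `K i` be finitely many CM fields with Weil numbers `π i` for `q = p ^ a` (any Newton polygons), and
let `A i` be the simple abelian varieties over the field with `q` elements with these Weil numbers
(Honda, Tate). We assume (`IsSeparated`)

* (`generated`) the powers of `π i` generate `K i`;
* (`typed`) the degree of `K i` is two, or it is four and `K i` contains no imaginary quadratic field,
  or it is twice an odd prime number, or it is larger than four and there is an odd function `s` on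
  the set of complex embeddings of `K i`, on which the automorphisms of `ℂ` act by signs (possibly
  `s = 0`), such that the odd functions orthogonal to `s` are an irreducible representation over `ℚ`
  of the group of automorphisms of `ℂ` (for instance if the Galois group of `K i` is large, or if `K i`
  is cyclic of 2-power degree);
* (`closure`) the Galois closures of `K i` and `K k`, `i ≠ k`, are different if both fields have degree
  at least four;
* (`quadratic`) no imaginary quadratic field is contained in two of the fields `K i`, and the norm of
  `π i` to an imaginary quadratic subfield of `K i` is not a power of the square root of `q`, up to a
  root of unity.

For example, the `A i` can be absolutely simple abelian surfaces, absolutely simple varieties of odd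
prime dimensions whose CM fields contain no imaginary quadratic field, with different Galois closures,
and ordinary elliptic curves with different CM fields, of any Newton polygons.

Over an algebraic closure of the field with `p` elements each abelian variety is isogenous to the
reduction of an abelian variety of CM type. So an abelian variety `Y` over a finite field is modelled
by a finite product of CM types `(E k, Φ k)` with Weil numbers in `E k` that satisfy the formula of
Shimura and Taniyama (`RedAV`, starting files). Let `𝒞` be the class of the abelian varieties `Y` which
are isogenous, over an algebraic closure, to a product of a supersingular abelian variety and of powers
of the `A i` (`IsSeparatedProduct`: each factor of `Y` is supersingular, or a power of its Frobenius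
endomorphism is the image of a power of some `π i` under an embedding of `K i`).

`Homology Ω V` are data of motivic homology `M X i j = H_i^M(X, ℚ(j)) = CH_j(X, i - 2 j) ⊗ ℚ` and of
`ℓ`-adic homology `E X i j = H_i(X, ℚ_ℓ(j))` (coefficients extended to `Ω`) of schemes `X` of finite
type over a finite field (the elements of `V`), with the Frobenius and the regulator. Let `𝒢` be the
smallest class (`Generated`) of such schemes that contains those with the homology groups of abelian
varieties in `𝒞` (`IsSeparatedAbelian`), that is closed under direct summands of finite sums of twists
of motives, and that contains all of a closed subscheme `Z` of `X`, `X` and `X ∖ Z` if it contains two
of them.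

**The theorem.** For all schemes `X` in `𝒢` and all `i` the cycle class map of dimension `i` is an
isomorphism of `CH_i(X) ⊗ Ω` with the invariants of the Frobenius in `H_(2 i)(X, ℚ_ℓ(i)) ⊗ Ω`, and
the eigenvalue one of the Frobenius is semisimple (`IsIso T X i`). The same is true for the complement
`U` of any closed subscheme `Z` of `X` (which need not be in `𝒢`) and all `i ≥ dim Z`.

Properties of the theory of cycles that are used for the abelian varieties (`IsHomology`, starting
files): Poincaré duality, the formal properties of correspondences, the nilpotence of homologically
trivial correspondences (Kimura), the operation of the Frobenius endomorphism on higher Chow groups,
the vanishing of the higher rational `K`-groups of a finite field (Quillen), and the theorem of Tate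
on divisors. The passage from the Tate conjecture to all degrees and to the class `Generated` is due
to Soulé, Geisser, Kahn and Jannsen (starting files).

**The main point** is that the only multiplicative relations between the conjugates of the `π i` and `q`
are the trivial ones `π * conj π = q`, up to roots of unity: the angle rank is maximal
(`Pool.Agent.Q43.HQ.maximalAngleRank`). Let `L` be the Galois closure of all `K i`, `c` the complex
conjugation, and let `T i` be the equivariant map from the embeddings `φ` of `K i` to the
representation `ℚ ⊗ L^×` of the Galois group which takes `φ` to the class of `φ(π i)^2 / q`. A relation
is `∑ v i φ T i φ = 0` with odd functions `v i`. If the Galois group does not act on `v i` by signs then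
for each element `κ` of the Galois group which acts nontrivially on `K i` there is a translate `v'` of
`v i` such that it does not act by signs on `v' - v' ∘ κ`. So all `k` for which `K i` is not in the
Galois closure of `K k` are removed from the relation one after another; those whose Galois closure is
strictly larger are removed by averaging. There remains a relation to which the other fields contribute
elements on which the group acts by signs; the commutators and the elements of odd order fix them, and
one finds that the Galois group acts on all `φ(π i)^2 / q` by signs, so that the degree of `K i` is two.
Hence `v i = 0`, or `v i` comes from an imaginary quadratic subfield of `K i`, and then the norm of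
`π i` to this field satisfies a relation.
-/

set_option autoImplicit false

namespace Pool.Agent.Results.MP_3af9db_ag.SeparatedByClosures

open Pool.Agent.W495.TA Pool.Agent.W495.FM Pool.Agent.Q43.HQ

/-- **The cycle class maps are isomorphisms for all schemes generated by abelian varieties with simple
factors which are separated by the Galois closures of their CM fields, and for the complements of closed
subschemes of dimension at most `d` in dimensions `i ≥ d`.** -/
theorem result (p : ℕ) [Fact p.Prime] (ν : PadicAlgCl p ≃+* ℂ) (Ω : Type) [Field Ω]
    [IsAlgClosed Ω] [CharZero Ω] (V : Type) (T : Homology Ω V) (hT : IsHomology T)
    (hW : HasWeights T) (X : V) (hX : Generated T (IsSeparatedAbelian p ν T) X) :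
    (∀ i : ℤ, IsIso T X i) ∧ ∀ (Z U : V) (d : ℤ), IsTriple T Z X U → HasDimLE T Z d →
      ∀ i : ℤ, d ≤ i → IsIso T U i :=
  ⟨fun i => (tb_separated hT hX).iso hT i, fun _ _ _ h1 hZ _ hi =>
    iso_separated hT hW hX h1 hZ hi⟩

end Pool.Agent.Results.MP_3af9db_ag.SeparatedByClosures
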