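import Pool.Agent.Q200.HE.TBMain

/-!
# Cycle class maps for singular varieties built from sums of ternary cubic forms

Let `k` be a finite field of characteristic `p ≥ 5` and let `W` be a smooth hypersurface over `k`, of
ARBITRARY dimension, with the equation

  `f_1(x_1, y_1, z_1) + f_2(x_2, y_2, z_2) + ⋯ + f_r(x_r, y_r, z_r) = 0`,

`f_j` cubic forms in at most three variables, or with the equation `f_1(x_1, y_1) + ⋯ + f_r(x_r, y_r)
= 0`, `f_j` binary quartic forms; one more term `u_j^3`, respectively `u_j^4`, is allowed for every
`j`. We prove that the cycle class maps `cl_i` are isomorphisms, for all `i`, for all varieties `X`
which can be built by decompositions into closed and open parts from products of such hypersurfaces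
and of elliptic curves; this class is stable under products. Examples: the singular hypersurfaces
`f_1 + ⋯ + f_r = 0` in the affine space (cones over `W`) and their projective closures, the affine
hypersurfaces `f_1 + ⋯ + f_r = 1`, and all products of these.
-/

open CategoryTheory MonoidalCategory

universe v u w

namespace Pool.Agent.Results.MP_3af9db_ag.SumsOfTernaryCubics

open Pool.Agent.Q200.HE

/-- **Cycle class maps for varieties built from sums of ternary cubics.** Let `T` be the Chow motives
with rational coefficients over an algebraic closure of a finite field `k` of characteristic at least
five, and the quasi-projective schemes over `k` (`hT`: known facts). Let `Built` be the smallest class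
of schemes which contains the smooth projective schemes with motives obtained by tensor products,
direct sums, direct summands and Tate twists from the motives `h^1(E)` of elliptic curves and the
motives of the smooth hypersurfaces `W`, of any dimensions, which are sums, in disjoint sets of
variables, of cubic forms in at most three variables or of binary quartic forms; and which contains
with two of `Z`, `X`, `U = X - Z` also the third one.

Then for all `X` in this class and all `i`, `j` the regulator from `CH_j(X, i - 2 j) ⊗ ℚ_l` to the
Galois invariants of `H_i(X, ℚ_l(j))` is bijective (for `i = 2 j` this is the map `cl_j`) and the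
eigenvalue one of Frobenius is semisimple; and the class is stable under products. -/
theorem result {𝓜 : Type u} [Category.{v} 𝓜] [Preadditive 𝓜] [MonoidalCategory 𝓜]
    {T : TBData.{v, u, w} 𝓜} (hT : T.Facts) :
    (∀ X : T.Var, T.Built X → T.TB X) ∧
      ∀ X Y : T.Var, T.Built X → T.Built Y → T.Built (T.prodV X Y) :=
  ⟨(TBData.final hT).1, (TBData.final hT).2.2⟩

end Pool.Agent.Results.MP_3af9db_ag.SumsOfTernaryCubics
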